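import Pool.Agent.Lib.MP_f36384_an.Dyn

/-! Growth of holomorphic functions whose image meets none of its translates by `2 π i`. -/

namespace Pool.Agent.Lib.MP_f36384_an

open Real Metric Complex Set

/-- A disc in the image. -/
theorem disc_image {g : ℂ → ℂ} {c : ℂ} {d : ℝ} (hd : 0 < d) (hg : DifferentiableOn ℂ g (ball c d))
    (h0 : deriv g c ≠ 0) (hb : ∀ w ∈ ball c d, ‖deriv g w‖ ≤ 2 * ‖deriv g c‖) :
    ball (g c) (‖deriv g c‖ * d / 24) ⊆ g '' ball c d := by
  set a := deriv g c with ha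
  have ha0 : 0 < ‖a‖ := norm_pos_iff.2 h0
  have h1 : ∀ w ∈ ball c d, ‖deriv g w - a‖ ≤ 3 * ‖a‖ / d * ‖w - c‖ := fun w hw => by
    have := dist_le_div_mul_dist_of_mapsTo_ball (R₂ := 3 * ‖a‖) (hg.deriv isOpen_ball)
      (fun z hz => by
        rw [mem_closedBall, dist_eq_norm]
        linarith [norm_sub_le (deriv g z) (deriv g c), hb z hz]) hw
    rwa [dist_eq_norm, dist_eq_norm] at this
  have hs : closedBall c (d / 6) ⊆ ball c d := closedBall_subset_ball (by linarith)
  have h2 : ∀ w ∈ closedBall c (d / 6), ‖(g w - a * w) - (g c - a * c)‖ ≤ ‖a‖ / 2 * ‖w - c‖ :=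
    fun w hw => by
      refine (convex_closedBall c (d / 6)).norm_image_sub_le_of_norm_hasDerivWithin_le
        (f := fun w => g w - a * w) (f' := fun w => deriv g w - a) (fun z hz => ?_)
        (fun z hz => ?_) (mem_closedBall_self (by linarith)) hw
      · have := ((hg.differentiableAt (isOpen_ball.mem_nhds (hs hz))).hasDerivAt.sub
          ((hasDerivAt_id z).const_mul a)).hasDerivWithinAt (s := closedBall c (d / 6))
        rw [mul_one] at this
        exact this
      · refine (h1 z (hs hz)).trans ?_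
        rw [mem_closedBall, dist_eq_norm] at hz
        calc 3 * ‖a‖ / d * ‖z - c‖ ≤ 3 * ‖a‖ / d * (d / 6) := by gcongr
          _ = _ := by field_simp; ring
  have h3 : ∀ w ∈ closedBall c (d / 6), ‖a‖ / 2 * ‖w - c‖ ≤ ‖g w - g c‖ := fun w hw => by
    have e : a * (w - c) = (g w - g c) - ((g w - a * w) - (g c - a * c)) := by ring
    have := norm_sub_le (g w - g c) ((g w - a * w) - (g c - a * c))
    rw [← e, norm_mul] at this
    linarith [h2 w hw]
  have h4 := (hg.mono (closure_ball_subset_closedBall.trans hs)).diffContOnCl.ball_subset_image_closedBall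
    (ε := ‖a‖ * d / 12) (by linarith) (fun z hz => by
      have := h3 z (sphere_subset_closedBall hz)
      rw [mem_sphere, dist_eq_norm] at hz
      rw [hz] at this
      linarith) ?_
  · rw [show ‖a‖ * d / 24 = ‖a‖ * d / 12 / 2 by ring]
    exact h4.trans (image_mono hs)
  · refine Filter.Frequently.filter_mono (Filter.Eventually.frequently ?_)
      (nhdsWithin_le_nhds (s := {c}ᶜ))
    filter_upwards [self_mem_nhdsWithin, mem_nhdsWithin_of_mem_nhds
      (closedBall_mem_nhds c (show 0 < d / 6 by linarith))] with z hz hz' e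
    have := h3 z hz'
    rw [e, sub_self, norm_zero] at this
    have h5 : 0 < ‖z - c‖ := norm_pos_iff.2 (sub_ne_zero.2 hz)
    nlinarith

theorem bloch {g : ℂ → ℂ} {δ R : ℝ} (hg : DifferentiableOn ℂ g (ball 0 δ)) (hR : R < δ)
    (hne : ∀ w ∈ ball (0 : ℂ) δ, ∀ w' ∈ ball (0 : ℂ) δ, g w ≠ g w' + 2 * π * I) {w : ℂ}
    (hw : ‖w‖ ≤ R) : (R - ‖w‖) * ‖deriv g w‖ ≤ 160 := by
  have hs : closedBall (0 : ℂ) R ⊆ ball 0 δ := closedBall_subset_ball hR
  obtain ⟨c, hc, hm⟩ := (isCompact_closedBall (0 : ℂ) R).exists_isMaxOn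
    ⟨w, mem_closedBall_zero_iff.2 hw⟩ (f := fun w => (R - ‖w‖) * ‖deriv g w‖)
    ((continuousOn_const.sub continuous_norm.continuousOn).mul
      ((hg.deriv isOpen_ball).continuousOn.mono hs).norm)
  refine le_trans (hm (mem_closedBall_zero_iff.2 hw)) ?_
  by_contra! H
  rw [mem_closedBall_zero_iff] at hc
  have h1 : 0 < R - ‖c‖ := by
    by_contra! k
    nlinarith [norm_nonneg (deriv g c)]
  have h2 : deriv g c ≠ 0 := fun e => by
    rw [e, norm_zero, mul_zero] at H
    linarith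
  have h3 : ∀ z ∈ ball c ((R - ‖c‖) / 2), ‖z‖ < ‖c‖ + (R - ‖c‖) / 2 := fun z hz => by
    rw [mem_ball, dist_eq_norm] at hz
    linarith [norm_le_insert' z c]
  have h4 : ball c ((R - ‖c‖) / 2) ⊆ ball 0 δ := fun z hz =>
    mem_ball_zero_iff.2 (by linarith [h3 z hz])
  have h5 := disc_image (half_pos h1) (hg.mono h4) h2 fun z hz => by
    have k1 : (R - ‖z‖) * ‖deriv g z‖ ≤ (R - ‖c‖) * ‖deriv g c‖ :=
      hm (mem_closedBall_zero_iff.2 (by linarith [h3 z hz]))
    have k2 : (R - ‖c‖) / 2 * ‖deriv g z‖ ≤ (R - ‖z‖) * ‖deriv g z‖ := by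
      gcongr
      linarith [h3 z hz]
    nlinarith
  have h6 : ‖(π : ℂ) * I‖ < ‖deriv g c‖ * ((R - ‖c‖) / 2) / 24 := by
    rw [norm_mul, norm_I, mul_one, norm_real, Real.norm_of_nonneg pi_pos.le]
    linarith [pi_lt_d2]
  obtain ⟨a, ha, ea⟩ := h5 (show g c + π * I ∈ _ by
    rw [mem_ball, dist_eq_norm, add_sub_cancel_left]; exact h6)
  obtain ⟨b, hb, eb⟩ := h5 (show g c - π * I ∈ _ by
    rw [mem_ball, dist_eq_norm, sub_sub_cancel_left, norm_neg]; exact h6)
  exact hne a (h4 ha) b (h4 hb) (by rw [ea, eb]; ring)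

theorem growth {g : ℂ → ℂ} {δ R : ℝ} (hg : DifferentiableOn ℂ g (ball 0 δ)) (hR : R < δ)
    (h0 : g 0 = 0)
    (hne : ∀ w ∈ ball (0 : ℂ) δ, ∀ w' ∈ ball (0 : ℂ) δ, g w ≠ g w' + 2 * π * I) {w : ℂ}
    (hw : ‖w‖ < R) : ‖g w‖ ≤ -160 * Real.log (1 - ‖w‖ / R) := by
  have hR0 : 0 < R := (norm_nonneg w).trans_lt hw
  have h1 : ∀ x ∈ Icc (0 : ℝ) 1, ‖(x : ℂ) * w‖ = x * ‖w‖ ∧ x * ‖w‖ < R := fun x hx =>
    ⟨by rw [norm_mul, norm_real, Real.norm_of_nonneg hx.1], by nlinarith [hx.2, norm_nonneg w]⟩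
  have h2 : ∀ x ∈ Icc (0 : ℝ) 1,
      HasDerivAt (fun x : ℝ => g (x * w)) (deriv g (x * w) * w) x := fun x hx => by
    have k := (hg.differentiableAt (isOpen_ball.mem_nhds (mem_ball_zero_iff.2
      (show ‖(x : ℂ) * w‖ < δ by linarith [(h1 x hx).1, (h1 x hx).2])))).hasDerivAt
    have := (k.comp (x : ℂ) ((hasDerivAt_id (x : ℂ)).mul_const w)).comp_ofReal
    rw [one_mul] at this
    exact this
  have h3 : ∀ x ∈ Icc (0 : ℝ) 1, HasDerivAt (fun x : ℝ => -160 * Real.log (1 - x * ‖w‖ / R))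
      (160 * ‖w‖ / (R - x * ‖w‖)) x := fun x hx => by
    have k : 0 < R - x * ‖w‖ := by linarith [(h1 x hx).2]
    have k' : 1 - x * ‖w‖ / R ≠ 0 := by
      rw [one_sub_div hR0.ne']
      positivity
    refine ((((hasDerivAt_id x).mul_const ‖w‖).div_const R).const_sub 1).log k'
      |>.const_mul (-160) |>.congr_deriv ?_
    simp only [id]
    field_simp
  have h4 := image_norm_le_of_norm_deriv_right_le_deriv_boundary'
    (fun x hx => (h2 x hx).continuousAt.continuousWithinAt)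
    (fun x hx => (h2 x (Ico_subset_Icc_self hx)).hasDerivWithinAt) (by simp [h0])
    (fun x hx => (h3 x hx).continuousAt.continuousWithinAt)
    (fun x hx => (h3 x (Ico_subset_Icc_self hx)).hasDerivWithinAt) (fun x hx => by
      obtain ⟨k1, k2⟩ := h1 x (Ico_subset_Icc_self hx)
      have := bloch hg hR hne (w := x * w) (by linarith)
      rw [k1] at this
      rw [norm_mul, le_div_iff₀ (by linarith)]
      nlinarith [norm_nonneg w]) (right_mem_Icc.2 zero_le_one)
  simpa using h4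

end Pool.Agent.Lib.MP_f36384_an
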