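import Mathlib

-- part Pool.Agent.Lib.MP_f36384_an.Circle
section

/-! Two estimates for a holomorphic function vanishing at the origin in terms of the circle
average of the positive part of its real part. -/

namespace Pool.Agent.Lib.MP_f36384_an

open Real Metric Complex

/-- the circle average of the positive part of the real part -/
noncomputable def posAvg (W : ℂ → ℂ) (R : ℝ) : ℝ :=
  circleAverage (fun z => max (W z).re 0) 0 R

theorem posAvg_nonneg (W : ℂ → ℂ) (R : ℝ) : 0 ≤ posAvg W R :=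
  circleAverage_nonneg_of_nonneg fun _ _ => le_max_right _ _

theorem cont_sphere {W : ℂ → ℂ} {R : ℝ} (hR : 0 < R) (hW : DiffContOnCl ℂ W (ball 0 R)) :
    ContinuousOn W (sphere 0 |R|) := by
  rw [abs_of_pos hR]
  exact hW.continuousOn_ball.mono sphere_subset_closedBall

theorem avg_re {f : ℂ → ℂ} {R : ℝ} (hf : CircleIntegrable f 0 R) :
    circleAverage (fun z => (f z).re) 0 R = (circleAverage f 0 R).re :=
  Complex.reCLM.circleAverage_comp_comm hf

theorem decomp {W : ℂ → ℂ} {R : ℝ} (hR : 0 < R) (hW : DiffContOnCl ℂ W (ball 0 R)) :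
    ∃ P : ℂ → ℂ, AnalyticOnNhd ℂ P (ball 0 R) ∧ P 0 = posAvg W R ∧
      ∀ w ∈ ball (0 : ℂ) R, 0 ≤ (P w).re ∧ (W w).re ≤ (P w).re := by
  have hc := cont_sphere hR hW
  have hu : ContinuousOn (fun z => max (W z).re 0) (sphere 0 |R|) :=
    (continuous_id.max continuous_const).comp_continuousOn (continuous_re.comp_continuousOn hc)
  have hui : CircleIntegrable (fun z => max (W z).re 0) 0 R := hu.circleIntegrable'
  have huc : CircleIntegrable (fun z => ((max (W z).re 0 : ℝ) : ℂ)) 0 R :=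
    (continuous_ofReal.comp_continuousOn hu).circleIntegrable'
  refine ⟨fun w => circleAverage
    (fun ζ => herglotzRieszKernel 0 w ζ • ((max (W ζ).re 0 : ℝ) : ℂ)) 0 R,
    analyticOnNhd_circleAverage_herglotzRieszKernel_smul huc, ?_, ?_⟩
  · have : circleAverage (fun ζ => herglotzRieszKernel 0 0 ζ • ((max (W ζ).re 0 : ℝ) : ℂ)) 0 R =
        circleAverage (fun ζ => ((max (W ζ).re 0 : ℝ) : ℂ)) 0 R := by
      apply circleAverage_congr_sphere
      intro z hz
      have hz0 : z ≠ 0 := by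
        rintro rfl
        simp [abs_of_pos hR, hR.ne] at hz
      simp [herglotzRieszKernel_def, hz0]
    simp only [this, posAvg]
    exact Complex.ofRealCLM.circleAverage_comp_comm hui
  · intro w hw
    have hk : ∀ z ∈ sphere (0 : ℂ) |R|, 0 ≤ (herglotzRieszKernel 0 w z).re := by
      intro z hz
      rw [abs_of_pos hR] at hz
      refine le_trans ?_ (le_re_herglotzRieszKernel hz hw)
      have : ‖w - 0‖ < R := by simpa using hw
      have := norm_nonneg (w - 0)
      apply div_nonneg <;> linarith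
    have hkc : ContinuousOn (fun z => (herglotzRieszKernel 0 w z).re) (sphere 0 |R|) :=
      continuous_re.comp_continuousOn (continuousOn_herglotzRieszKernel_sphere hw)
    rw [re_circleAverage_herglotzRieszKernel_smul hui hw]
    constructor
    · exact circleAverage_nonneg_of_nonneg fun z hz => mul_nonneg (hk z hz) (le_max_right _ _)
    · have h1 := hW.circleAverage_re_herglotzRieszKernel_smul hw
      have hi : CircleIntegrable ((Complex.re ∘ herglotzRieszKernel 0 w) • W) 0 R :=
        (hkc.smul hc).circleIntegrable'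
      rw [← h1, ← avg_re hi]
      refine circleAverage_mono (continuous_re.comp_continuousOn (hkc.smul hc)).circleIntegrable'
        (hkc.smul hu).circleIntegrable' fun z hz => ?_
      simp only [Pi.smul_apply', Function.comp_apply, smul_eq_mul, Complex.smul_re]
      exact mul_le_mul_of_nonneg_left (le_max_left _ _) (hk z hz)

theorem alg_ineq (x y : ℝ) :
    (1 + x + y) ^ 2 ≤ (2 / 5) ^ 2 * ((9 + x ^ 2) * (9 + y ^ 2)) := by
  nlinarith [sq_nonneg (x * y - 13 / 2), sq_nonneg (x - y), sq_nonneg (x + y - 5)]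

theorem sq_norm_three_add {p : ℂ} (hp : 0 ≤ p.re) : 9 + ‖p‖ ^ 2 ≤ ‖3 + p‖ ^ 2 := by
  rw [Complex.sq_norm, Complex.sq_norm, normSq_apply, normSq_apply]
  simp
  nlinarith

theorem pow_le_pow_left₀_iff_aux {a b : ℝ} (hb : 0 ≤ b) (h : a ^ 2 ≤ b ^ 2) : a ≤ b :=
  (abs_le_of_sq_le_sq' h hb).2

theorem log_le {p q : ℂ} (hp : 0 ≤ p.re) (hq : 0 ≤ q.re) :
    Real.log (1 + ‖p - q‖) ≤ Real.log (2 / 5) + (Real.log ‖3 + p‖ + Real.log ‖3 + q‖) := by
  have h1 := sq_norm_three_add hp
  have h2 := sq_norm_three_add hq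
  have p1 : 0 < ‖3 + p‖ := by
    by_contra h
    have : ‖3 + p‖ = 0 := le_antisymm (not_lt.1 h) (norm_nonneg _)
    rw [this] at h1
    nlinarith [sq_nonneg ‖p‖]
  have p2 : 0 < ‖3 + q‖ := by
    by_contra h
    have : ‖3 + q‖ = 0 := le_antisymm (not_lt.1 h) (norm_nonneg _)
    rw [this] at h2
    nlinarith [sq_nonneg ‖q‖]
  rw [← Real.log_mul p1.ne' p2.ne', ← Real.log_mul (by norm_num) (by positivity)]
  apply Real.log_le_log (by positivity)
  have h3 : 1 + ‖p - q‖ ≤ 1 + ‖p‖ + ‖q‖ := by linarith [norm_sub_le p q]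
  refine h3.trans (pow_le_pow_left₀_iff_aux (by positivity) ?_)
  calc (1 + ‖p‖ + ‖q‖) ^ 2 ≤ (2 / 5) ^ 2 * ((9 + ‖p‖ ^ 2) * (9 + ‖q‖ ^ 2)) :=
        alg_ineq _ _
    _ ≤ (2 / 5) ^ 2 * (‖3 + p‖ ^ 2 * ‖3 + q‖ ^ 2) := by gcongr
    _ = _ := by ring

theorem log_avg {P : ℂ → ℂ} {r R : ℝ} (hr : 0 < r) (hrR : r < R)
    (hP : AnalyticOnNhd ℂ P (ball 0 R)) (hre : ∀ w ∈ ball (0 : ℂ) R, 0 ≤ (P w).re) :
    ContinuousOn (fun z => Real.log ‖3 + P z‖) (sphere 0 |r|) ∧
      circleAverage (fun z => Real.log ‖3 + P z‖) 0 r = Real.log ‖3 + P 0‖ := by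
  have hsub : closedBall (0 : ℂ) |r| ⊆ ball 0 R := by
    rw [abs_of_pos hr]
    exact closedBall_subset_ball hrR
  have hne : ∀ w ∈ closedBall (0 : ℂ) |r|, 3 + P w ≠ 0 := by
    intro w hw h
    have := congrArg Complex.re h
    simp at this
    linarith [hre w (hsub hw)]
  have han : AnalyticOnNhd ℂ (fun z => 3 + P z) (closedBall 0 |r|) :=
    fun w hw => analyticAt_const.add (hP w (hsub hw))
  refine ⟨?_, han.circleAverage_log_norm_of_ne_zero hne⟩
  refine ContinuousOn.log (han.continuousOn.mono sphere_subset_closedBall).norm fun z hz => ?_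
  exact norm_ne_zero_iff.2 (hne z (sphere_subset_closedBall hz))

/-- A logarithmic form of Kolmogorov's inequality. -/
theorem avg_log_le {W : ℂ → ℂ} {r R A : ℝ} (hr : 0 < r) (hrR : r < R)
    (hW : DiffContOnCl ℂ W (ball 0 R)) (h0 : W 0 = 0) (hA : posAvg W R ≤ A) :
    circleAverage (fun z => Real.log (1 + ‖W z‖)) 0 r ≤
      Real.log (2 / 5) + 2 * Real.log (3 + A) := by
  have hR : 0 < R := hr.trans hrR
  obtain ⟨P, hP, hP0, hre⟩ := decomp hR hW
  have hWa : AnalyticOnNhd ℂ W (ball 0 R) := hW.differentiableOn.analyticOnNhd isOpen_ball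
  have hN : AnalyticOnNhd ℂ (fun z => P z - W z) (ball 0 R) := hP.sub hWa
  obtain ⟨c1, a1⟩ := log_avg hr hrR hP fun w hw => (hre w hw).1
  obtain ⟨c2, a2⟩ := log_avg hr hrR hN fun w hw => by
    rw [sub_re]; linarith [(hre w hw).2]
  have hsub : sphere (0 : ℂ) |r| ⊆ ball 0 R := by
    rw [abs_of_pos hr]
    exact sphere_subset_closedBall.trans (closedBall_subset_ball hrR)
  have c0 : ContinuousOn (fun z => Real.log (1 + ‖W z‖)) (sphere 0 |r|) :=
    ContinuousOn.log (continuousOn_const.add (hWa.continuousOn.mono hsub).norm) fun z _ =>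
      (add_pos_of_pos_of_nonneg one_pos (norm_nonneg _)).ne'
  have hA0 := posAvg_nonneg W R
  have hn : ‖3 + (posAvg W R : ℂ)‖ = 3 + posAvg W R := by
    rw [show (3 + (posAvg W R : ℂ)) = ((3 + posAvg W R : ℝ) : ℂ) by push_cast; rfl,
      Complex.norm_real, Real.norm_of_nonneg (by linarith)]
  calc circleAverage (fun z => Real.log (1 + ‖W z‖)) 0 r
      ≤ circleAverage (fun z => Real.log (2 / 5) +
          (Real.log ‖3 + P z‖ + Real.log ‖3 + (P z - W z)‖)) 0 r := by
        refine circleAverage_mono c0.circleIntegrable'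
          (continuousOn_const.add (c1.add c2)).circleIntegrable' fun z hz => ?_
        have := log_le (hre z (hsub hz)).1 (q := P z - W z)
          (by rw [sub_re]; linarith [(hre z (hsub hz)).2])
        simpa using this
    _ = Real.log (2 / 5) + (Real.log ‖3 + P 0‖ + Real.log ‖3 + (P 0 - W 0)‖) := by
        have c12 : ContinuousOn (fun z => Real.log ‖3 + P z‖ + Real.log ‖3 + (P z - W z)‖)
            (sphere 0 |r|) := c1.add c2
        rw [circleAverage_fun_add (circleIntegrable_const _ _ _) c12.circleIntegrable',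
          circleAverage_fun_add c1.circleIntegrable' c2.circleIntegrable', a1, a2,
          circleAverage_const]
    _ ≤ _ := by
        rw [h0, sub_zero, hP0, hn]
        have := Real.log_le_log (by linarith) (show 3 + posAvg W R ≤ 3 + A by linarith)
        linarith

theorem norm_avg_le {f : ℂ → ℂ} {g : ℂ → ℝ} {R : ℝ} (hg : CircleIntegrable g 0 R)
    (h : ∀ z ∈ sphere (0 : ℂ) |R|, ‖f z‖ ≤ g z) :
    ‖circleAverage f 0 R‖ ≤ circleAverage g 0 R := by
  rw [circleAverage_def, circleAverage_def, norm_smul, smul_eq_mul,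
    Real.norm_of_nonneg (by positivity)]
  gcongr
  exact intervalIntegral.norm_integral_le_of_norm_le (by positivity)
    (Filter.Eventually.of_forall fun θ _ => h _ (circleMap_mem_sphere' _ _ _)) hg

/-- Caratheodory's coefficient estimate. -/
theorem coeff_le {W : ℂ → ℂ} {R : ℝ} (hR : 0 < R) (hW : DiffContOnCl ℂ W (ball 0 R))
    (h0 : W 0 = 0) (k : ℕ) :
    ‖iteratedDeriv k W 0 / k.factorial‖ * R ^ k ≤ 4 * posAvg W R := by
  have hc := cont_sphere hR hW
  have hW' : DiffContOnCl ℂ W (ball 0 |R|) := by rwa [abs_of_pos hR]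
  have hne : ∀ z ∈ sphere (0 : ℂ) |R|, z ≠ 0 := by
    rintro z hz rfl
    simp [abs_of_pos hR, hR.ne] at hz
  have hnz : ∀ z ∈ sphere (0 : ℂ) |R|, ‖z‖ = R := by
    intro z hz
    simpa [abs_of_pos hR] using hz
  have ck : ContinuousOn (fun z : ℂ => ((R : ℂ) / z) ^ k) (sphere 0 |R|) :=
    (continuousOn_const.div continuousOn_id hne).pow k
  have e1 : circleAverage (fun z => ((R : ℂ) / z) ^ k * W z) 0 R =
      iteratedDeriv k W 0 / k.factorial * R ^ k := by
    rw [circleAverage_eq_circleIntegral hR.ne']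
    have : (∮ z in C(0, R), (z - 0)⁻¹ • (((R : ℂ) / z) ^ k * W z)) =
        ∮ z in C(0, R), (R : ℂ) ^ k • ((1 / (z - 0) ^ (k + 1)) • W z) := by
      congr 1
      funext z
      simp only [sub_zero, smul_eq_mul, div_pow, pow_succ]
      ring
    rw [this, circleIntegral.integral_smul, hW.circleIntegral_one_div_sub_center_pow_smul hR k]
    simp only [smul_eq_mul]
    have := two_pi_I_ne_zero
    field_simp
  have e2 : circleAverage (fun z => ((R : ℂ) / z) ^ k * (starRingEnd ℂ) (W z)) 0 R = 0 := by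
    have hp : Differentiable ℂ (fun z : ℂ => (z / R) ^ k) := by fun_prop
    have hd : DiffContOnCl ℂ (fun z => (z / R) ^ k * W z) (ball 0 |R|) :=
      DiffContOnCl.smul hp.diffContOnCl hW'
    have h1 := hd.circleAverage
    simp only [h0, mul_zero] at h1
    have hi : CircleIntegrable (fun z => (z / R) ^ k * W z) 0 R :=
      (hd.continuousOn_ball.mono sphere_subset_closedBall).circleIntegrable'
    have h2 := (Complex.conjCLE : ℂ →L[ℝ] ℂ).circleAverage_comp_comm hi
    rw [h1, map_zero] at h2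
    refine Eq.trans ?_ h2
    apply circleAverage_congr_sphere
    intro z hz
    have hz0 := hne z hz
    have hR0 : (R : ℂ) ≠ 0 := by exact_mod_cast hR.ne'
    have hconj : (starRingEnd ℂ) z / R = R / z := by
      rw [div_eq_div_iff hR0 hz0, mul_comm, Complex.mul_conj, Complex.normSq_eq_norm_sq, hnz z hz]
      push_cast
      ring
    simp [hconj]
  have ci1 : CircleIntegrable (fun z => ((R : ℂ) / z) ^ k * W z) 0 R := (ck.mul hc).circleIntegrable'
  have ci2 : CircleIntegrable (fun z => ((R : ℂ) / z) ^ k * (starRingEnd ℂ) (W z)) 0 R :=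
    (ck.mul (continuous_conj.comp_continuousOn hc)).circleIntegrable'
  have e3 := circleAverage_fun_add ci1 ci2
  rw [e1, e2, add_zero] at e3
  have cre : ContinuousOn (fun z => (W z).re) (sphere 0 |R|) := continuous_re.comp_continuousOn hc
  have cu : ContinuousOn (fun z => max (W z).re 0) (sphere 0 |R|) :=
    (continuous_id.max continuous_const).comp_continuousOn cre
  have cu4 : ContinuousOn (fun z => (4 : ℝ) • max (W z).re 0) (sphere 0 |R|) :=
    cu.const_smul (4 : ℝ)
  have cre2 : ContinuousOn (fun z => (2 : ℝ) • (W z).re) (sphere 0 |R|) := cre.const_smul (2 : ℝ)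
  have e4 : circleAverage (fun z => (W z).re) 0 R = 0 := by
    rw [avg_re hc.circleIntegrable', hW'.circleAverage, h0, zero_re]
  have e5 : circleAverage (fun z => (4 : ℝ) • max (W z).re 0 - (2 : ℝ) • (W z).re) 0 R =
      4 * posAvg W R := by
    rw [circleAverage_fun_sub cu4.circleIntegrable' cre2.circleIntegrable',
      circleAverage_fun_smul, circleAverage_fun_smul, e4]
    simp [posAvg]
  have e6 : ‖iteratedDeriv k W 0 / k.factorial‖ * R ^ k =
      ‖iteratedDeriv k W 0 / k.factorial * R ^ k‖ := by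
    rw [norm_mul, norm_pow, Complex.norm_real, Real.norm_of_nonneg hR.le]
  rw [e6, ← e3, ← e5]
  refine norm_avg_le (cu4.sub cre2).circleIntegrable' fun z hz => ?_
  rw [← mul_add, Complex.add_conj, norm_mul, norm_pow, norm_div, hnz z hz, Complex.norm_real,
    Real.norm_of_nonneg hR.le, div_self hR.ne', one_pow, one_mul, Complex.norm_real,
    Real.norm_eq_abs]
  simp only [smul_eq_mul]
  rcases le_total (W z).re 0 with h | h
  · rw [max_eq_right h, abs_of_nonpos (by linarith)]
    linarith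
  · rw [max_eq_left h, abs_of_nonneg (by linarith)]
    linarith

end Pool.Agent.Lib.MP_f36384_an
end

-- part Pool.Agent.Lib.MP_f36384_an.Dyn
section

namespace Pool.Agent.Lib.MP_f36384_an

open Real Metric Complex

theorem num_ineq :
    Real.log (2 / 5) + 2 * Real.log (3 + 5 / 2) - Real.log (199 / 200) ≤ 5 / 2 := by
  have h : Real.log (2 / 5) + 2 * Real.log (3 + 5 / 2) - Real.log (199 / 200) =
      Real.log (2420 / 199) := by
    rw [show (2420 / 199 : ℝ) = 2 / 5 * (3 + 5 / 2) ^ 2 / (199 / 200) by norm_num,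
      Real.log_div (x := 2 / 5 * (3 + 5 / 2) ^ 2) (by norm_num) (by norm_num),
      Real.log_mul (by norm_num) (by norm_num), Real.log_pow]
    norm_num
  rw [h, Real.log_le_iff_le_exp (by norm_num)]
  refine le_trans ?_ (Real.sum_le_exp_of_nonneg (by norm_num) 12)
  simp only [Finset.sum_range_succ, Finset.sum_range_zero, Nat.factorial]
  norm_num

theorem diffCl {g : ℂ → ℂ} {R δ : ℝ} (hg : DifferentiableOn ℂ g (ball 0 δ)) (h : R < δ) :
    DiffContOnCl ℂ g (ball 0 R) :=
  (hg.mono (closure_ball_subset_closedBall.trans (closedBall_subset_ball h))).diffContOnCl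

theorem step {V W τ : ℂ → ℂ} {r R : ℝ} (hr : 0 < r) (hrR : r < R)
    (hV : DiffContOnCl ℂ V (ball 0 r)) (hW : DiffContOnCl ℂ W (ball 0 R)) (h0 : W 0 = 0)
    (hA : posAvg W R ≤ 5 / 2)
    (hτ : ∀ z ∈ sphere (0 : ℂ) r, 199 / 200 ≤ ‖τ z‖ ∧ Complex.exp (V z) = 1 + W z / τ z) :
    posAvg V r ≤ 5 / 2 := by
  have h1 := avg_log_le hr hrR hW h0 hA
  have hc := cont_sphere hr hV
  have hu : ContinuousOn (fun z => max (V z).re 0) (sphere 0 |r|) :=
    (continuous_id.max continuous_const).comp_continuousOn (continuous_re.comp_continuousOn hc)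
  have hsub : sphere (0 : ℂ) |r| ⊆ ball 0 R := by
    rw [abs_of_pos hr]
    exact sphere_subset_closedBall.trans (closedBall_subset_ball hrR)
  have c0 : ContinuousOn (fun z => Real.log (1 + ‖W z‖)) (sphere 0 |r|) :=
    ContinuousOn.log (continuousOn_const.add
      (hW.differentiableOn.continuousOn.mono hsub).norm) fun z _ =>
      (add_pos_of_pos_of_nonneg one_pos (norm_nonneg _)).ne'
  have c1 : ContinuousOn (fun z => Real.log (1 + ‖W z‖) - Real.log (199 / 200)) (sphere 0 |r|) :=
    c0.sub continuousOn_const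
  have h2 : posAvg V r ≤
      circleAverage (fun z => Real.log (1 + ‖W z‖) - Real.log (199 / 200)) 0 r := by
    refine circleAverage_mono hu.circleIntegrable' c1.circleIntegrable' fun z hz => ?_
    rw [abs_of_pos hr] at hz
    obtain ⟨t1, t2⟩ := hτ z hz
    have hw := norm_nonneg (W z)
    rw [← Real.log_div (by positivity) (by norm_num)]
    refine max_le ?_ (Real.log_nonneg ?_)
    · rw [Real.le_log_iff_exp_le (by positivity), ← Complex.norm_exp, t2]
      calc ‖1 + W z / τ z‖ ≤ ‖(1 : ℂ)‖ + ‖W z / τ z‖ := norm_add_le _ _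
        _ = 1 + ‖W z‖ / ‖τ z‖ := by simp
        _ ≤ 1 / (199 / 200) + ‖W z‖ / (199 / 200) := by
          gcongr
          norm_num
        _ = _ := by ring
    · rw [le_div_iff₀ (by norm_num)]
      linarith
  rw [circleAverage_fun_sub c0.circleIntegrable' (circleIntegrable_const _ _ _),
    circleAverage_const] at h2
  linarith [num_ineq]

theorem exists_log {h : ℂ → ℂ} {δ : ℝ} (hδ : 0 < δ) (hd : DifferentiableOn ℂ h (ball 0 δ))
    (hne : ∀ w ∈ ball (0 : ℂ) δ, h w ≠ 0) (h0 : h 0 = 1) :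
    ∃ G : ℂ → ℂ, DifferentiableOn ℂ G (ball 0 δ) ∧ G 0 = 0 ∧ deriv G 0 = deriv h 0 ∧
      ∀ w ∈ ball (0 : ℂ) δ, Complex.exp (G w) = h w := by
  have hd' : DifferentiableOn ℂ (fun w => deriv h w / h w) (ball 0 δ) :=
    (hd.deriv isOpen_ball).div hd hne
  obtain ⟨G₀, hG₀⟩ := hd'.isExactOn_ball
  have hG : ∀ w ∈ ball (0 : ℂ) δ, HasDerivAt (fun w => G₀ w - G₀ 0) (deriv h w / h w) w :=
    fun w hw => (hG₀ w hw).sub_const _
  have hz : (0 : ℂ) ∈ ball (0 : ℂ) δ := mem_ball_self hδ
  refine ⟨fun w => G₀ w - G₀ 0, fun w hw => (hG w hw).differentiableAt.differentiableWithinAt,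
    by simp, by rw [(hG 0 hz).deriv, h0, div_one], ?_⟩
  have hq : ∀ w ∈ ball (0 : ℂ) δ,
      HasDerivAt (fun w => h w * Complex.exp (-(G₀ w - G₀ 0))) 0 w := by
    intro w hw
    have h1 := (hd.differentiableAt (isOpen_ball.mem_nhds hw)).hasDerivAt
    have h2 := h1.mul (hG w hw).neg.cexp
    have h3 : deriv h w * Complex.exp (-(G₀ w - G₀ 0)) +
        h w * (Complex.exp (-(G₀ w - G₀ 0)) * -(deriv h w / h w)) = 0 := by
      have := hne w hw
      field_simp
      ring
    exact h2.congr_deriv h3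
  intro w hw
  have hc : h w * Complex.exp (-(G₀ w - G₀ 0)) = h 0 * Complex.exp (-(G₀ 0 - G₀ 0)) :=
    isOpen_ball.is_const_of_deriv_eq_zero (convex_ball (0 : ℂ) δ).isPreconnected
      (fun w hw => (hq w hw).differentiableAt.differentiableWithinAt)
      (fun w hw => (hq w hw).deriv) hw hz
  rw [h0, sub_self, neg_zero, Complex.exp_zero, one_mul, Complex.exp_neg] at hc
  have := Complex.exp_ne_zero (G₀ w - G₀ 0)
  field_simp at hc
  exact hc.symm

/-- the map `w ↦ t (exp w - 1)` -/
noncomputable def fm (t w : ℂ) : ℂ := t * (Complex.exp w - 1)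

theorem fm_small {t w : ℂ} {ρ : ℝ} (hρ : 0 ≤ ρ) (ht : ‖t‖ ≤ ρ) (hw : ‖w‖ < 1 - ρ) :
    ‖fm t w‖ < 1 - ρ := by
  have hw0 := norm_nonneg w
  have h1 : ‖Complex.exp w - 1 - w‖ ≤ ‖w‖ ^ 2 := Complex.norm_exp_sub_one_sub_id_le (by linarith)
  have h2 : ‖Complex.exp w - 1‖ ≤ ‖w‖ ^ 2 + ‖w‖ := by
    calc ‖Complex.exp w - 1‖ = ‖(Complex.exp w - 1 - w) + w‖ := by ring_nf
      _ ≤ ‖Complex.exp w - 1 - w‖ + ‖w‖ := norm_add_le _ _
      _ ≤ _ := by linarith
  unfold fm
  rw [norm_mul]
  calc ‖t‖ * ‖Complex.exp w - 1‖ ≤ ρ * (‖w‖ ^ 2 + ‖w‖) := by gcongr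
    _ = ‖w‖ * (ρ * (‖w‖ + 1)) := by ring
    _ ≤ ‖w‖ * 1 := by
      gcongr
      nlinarith [sq_nonneg (1 - ρ)]
    _ < 1 - ρ := by linarith

theorem branches {t : ℂ} {δ : ℝ} (hδ : 0 < δ) (hδ1 : δ ≤ 1) (ht : 199 / 200 ≤ ‖t‖) (N : ℕ)
    (hN : ∀ j ≤ N, ¬ ‖(fm t)^[j] (-t)‖ < δ) : ∀ j ≤ N, ∃ g : ℂ → ℂ,
      DifferentiableOn ℂ g (ball 0 δ) ∧ g 0 = 0 ∧ t ^ j * deriv g 0 = 1 ∧
      (∀ w ∈ ball (0 : ℂ) δ, (fm t)^[j] (g w) = w) ∧ ∀ r, 0 < r → r < δ → posAvg g r ≤ 5 / 2 := by
  have ht0 : t ≠ 0 := by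
    rintro rfl
    norm_num at ht
  intro j
  induction j with
  | zero =>
    intro _
    refine ⟨fun w => w, differentiableOn_id, rfl, by simp, fun w _ => rfl, fun r hr hrδ => ?_⟩
    refine circleAverage_mono_on_of_le_circle
      ((continuous_re.max continuous_const).continuousOn.circleIntegrable') fun z hz => ?_
    have h1 : ‖z‖ = r := by simpa [abs_of_pos hr] using hz
    exact max_le (by linarith [Complex.re_le_norm z]) (by norm_num)
  | succ j ih =>
    intro hj
    obtain ⟨g, gd, g0, g1, gi, ga⟩ := ih (by omega)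
    have hd : DifferentiableOn ℂ (fun w => 1 + g w / t) (ball 0 δ) :=
      (gd.div_const t).const_add 1
    have hne : ∀ w ∈ ball (0 : ℂ) δ, 1 + g w / t ≠ 0 := by
      intro w hw h
      have h1 : g w = -t := by
        field_simp at h
        linear_combination h
      apply hN j (by omega)
      rw [← h1, gi w hw]
      simpa using hw
    obtain ⟨G, Gd, G0, G1, Ge⟩ := exists_log hδ hd hne (by simp [g0])
    refine ⟨G, Gd, G0, ?_, fun w hw => ?_, fun r hr hrδ => ?_⟩
    · rw [G1, deriv_const_add, deriv_div_const, ← g1]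
      field_simp
      ring
    · rw [Function.iterate_succ_apply]
      have : fm t (G w) = g w := by
        unfold fm
        rw [Ge w hw]
        field_simp
        ring
      rw [this, gi w hw]
    · obtain ⟨R, hrR, hRδ⟩ := exists_between hrδ
      refine step (τ := fun _ => t) hr hrR (diffCl Gd hrδ) (diffCl gd hRδ) g0
        (ga R (hr.trans hrR) hRδ) fun z hz => ⟨ht, Ge z ?_⟩
      exact (sphere_subset_closedBall.trans (closedBall_subset_ball hrδ)) hz

/-- The orbit of the singular value enters a small disc, uniformly on a closed annulus. -/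
theorem escape {ρ : ℝ} (hρ0 : 0 < ρ) (hρ : ρ < 1) : ∃ N : ℕ, ∀ t : ℂ, 199 / 200 ≤ ‖t‖ → ‖t‖ ≤ ρ →
    ∀ m, N ≤ m → ‖(fm t)^[m] (-t)‖ < 1 - ρ := by
  obtain ⟨N, hN⟩ := exists_pow_lt_of_lt_one (show 0 < (1 - ρ) / 20 by linarith) hρ
  refine ⟨N, fun t ht1 ht2 => ?_⟩
  have hex : ∃ j ≤ N, ‖(fm t)^[j] (-t)‖ < 1 - ρ := by
    by_contra hcon
    push Not at hcon
    obtain ⟨g, gd, g0, g1, -, ga⟩ := branches (δ := 1 - ρ) (by linarith) (by linarith) ht1 N
      (fun j hj => not_lt.2 (hcon j hj)) N le_rfl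
    have h1 := coeff_le (R := (1 - ρ) / 2) (by linarith) (diffCl gd (by linarith)) g0 1
    have h2 := ga ((1 - ρ) / 2) (by linarith) (by linarith)
    simp only [iteratedDeriv_one, Nat.factorial_one, Nat.cast_one, div_one, pow_one] at h1
    have h3 : ‖t‖ ^ N * ‖deriv g 0‖ = 1 := by rw [← norm_pow, ← norm_mul, g1, norm_one]
    have h4 : ‖t‖ ^ N ≤ ρ ^ N := by gcongr
    have h5 := norm_nonneg (deriv g 0)
    have h6 : 0 ≤ ‖t‖ ^ N := by positivity
    have h7 : ‖t‖ ^ N * (‖deriv g 0‖ * ((1 - ρ) / 2)) ≤ ‖t‖ ^ N * 10 := by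
      gcongr
      linarith
    rw [← mul_assoc, h3] at h7
    linarith
  obtain ⟨j, hj, hsmall⟩ := hex
  intro m hm
  obtain ⟨d, rfl⟩ := Nat.exists_eq_add_of_le (hj.trans hm)
  clear hm
  induction d with
  | zero => exact hsmall
  | succ d ih =>
    rw [← add_assoc, Function.iterate_succ_apply']
    exact fm_small hρ0.le ht2 ih

/-- the value at `-1` of the `n`-th iterate -/
noncomputable def F (n : ℕ) (t : ℂ) : ℂ := (fun z => Complex.exp (t * z) - 1)^[n] (-1)

theorem F_succ (n : ℕ) (t : ℂ) : F (n + 1) t = Complex.exp (t * F n t) - 1 :=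
  Function.iterate_succ_apply' _ _ _

theorem F_diff (n : ℕ) : Differentiable ℂ (F n) := by
  induction n with
  | zero => exact differentiable_const _
  | succ n ih =>
    have : F (n + 1) = fun t => Complex.exp (t * F n t) - 1 := funext (F_succ n)
    rw [this]
    fun_prop

theorem W_diff (n : ℕ) : Differentiable ℂ (fun t => t * F n t) := differentiable_id.mul (F_diff n)

theorem W_eq (n : ℕ) (t : ℂ) : t * F n t = (fm t)^[n] (-t) := by
  induction n with
  | zero => simp [F]
  | succ n ih => rw [Function.iterate_succ_apply', ← ih, F_succ, fm]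

theorem posAvg_W (n : ℕ) {R : ℝ} (hR1 : 199 / 200 ≤ R) (hR : R < 1) :
    posAvg (fun t => t * F n t) R ≤ 5 / 2 := by
  obtain ⟨ρ, hRρ, hρ⟩ := exists_between hR
  obtain ⟨N, hN⟩ := escape (by linarith) hρ
  have key : ∀ i m : ℕ, N ≤ m + i → ∀ r : ℝ, 199 / 200 ≤ r → r < ρ →
      posAvg (fun t => t * F m t) r ≤ 5 / 2 := by
    intro i
    induction i with
    | zero =>
      intro m hm r hr1 hr2
      refine circleAverage_mono_on_of_le_circle
        (((continuous_re.comp (W_diff m).continuous).max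
          continuous_const).continuousOn.circleIntegrable') fun z hz => ?_
      have h1 : ‖z‖ = r := by simpa [abs_of_pos (show 0 < r by linarith)] using hz
      have h2 := hN z (by linarith) (by linarith) m hm
      rw [← W_eq] at h2
      exact max_le (by linarith [Complex.re_le_norm (z * F m z)]) (by norm_num)
    | succ i ih =>
      intro m hm r hr1 hr2
      obtain ⟨r', hrr', hr'ρ⟩ := exists_between hr2
      refine step (τ := fun z => z) (by linarith) hrr' (W_diff m).diffContOnCl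
        (W_diff (m + 1)).diffContOnCl (by simp) (ih (m + 1) (by omega) r' (by linarith) hr'ρ)
        fun z hz => ?_
      have h1 : ‖z‖ = r := by simpa using hz
      have hz0 : z ≠ 0 := by
        rintro rfl
        simp at h1
        linarith
      refine ⟨by linarith, ?_⟩
      rw [F_succ]
      field_simp
      ring
  exact key N n (by omega) R hR1 hRρ

theorem coeff_shift {f : ℂ → ℂ} (hf : Differentiable ℂ f) (k : ℕ) :
    iteratedDeriv (k + 1) (fun t => t * f t) 0 / (k + 1).factorial =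
      iteratedDeriv k f 0 / k.factorial := by
  have h1 := (hf.diffContOnCl (s := ball (0 : ℂ) 1)).circleIntegral_one_div_sub_center_pow_smul
    one_pos k
  have h2 := ((differentiable_id.mul hf).diffContOnCl
    (s := ball (0 : ℂ) 1)).circleIntegral_one_div_sub_center_pow_smul one_pos (k + 1)
  have h3 : (∮ z in C(0, 1), (1 / (z - 0) ^ (k + 1 + 1)) • ((id : ℂ → ℂ) * f) z) =
      ∮ z in C(0, 1), (1 / (z - 0) ^ (k + 1)) • f z := by
    refine circleIntegral.integral_congr zero_le_one fun z hz => ?_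
    have hz0 : z ≠ 0 := by
      rintro rfl
      simp at hz
    simp only [sub_zero, smul_eq_mul, Pi.mul_apply, id]
    field_simp
    ring
  rw [h3, h1] at h2
  simp only [smul_eq_mul] at h2
  have h4 : (2 * π * I) * (iteratedDeriv k f 0 / k.factorial) =
      (2 * π * I) * (iteratedDeriv (k + 1) (fun t => t * f t) 0 / (k + 1).factorial) := by
    calc (2 * π * I) * (iteratedDeriv k f 0 / k.factorial)
        = 2 * π * I / k.factorial * iteratedDeriv k f 0 := by ring
      _ = 2 * π * I / (k + 1).factorial * iteratedDeriv (k + 1) (id * f) 0 := h2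
      _ = _ := by
        have : (id * f) = fun t => t * f t := rfl
        rw [this]
        ring
  exact (mul_left_cancel₀ two_pi_I_ne_zero h4).symm

theorem main (n k : ℕ) : ‖iteratedDeriv k (F n) 0 / k.factorial‖ ≤ 10 := by
  rw [← coeff_shift (F_diff n) k]
  set c := ‖iteratedDeriv (k + 1) (fun t => t * F n t) 0 / (k + 1).factorial‖ with hc
  have h1 : ∀ R : ℝ, 199 / 200 ≤ R → R < 1 → c * R ^ (k + 1) ≤ 10 := by
    intro R hR1 hR
    have := coeff_le (R := R) (by linarith) (W_diff n).diffContOnCl (by simp) (k + 1)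
    linarith [posAvg_W n hR1 hR]
  have h2 : Filter.Tendsto (fun R : ℝ => c * R ^ (k + 1)) (nhdsWithin 1 (Set.Iio 1))
      (nhds (c * 1 ^ (k + 1))) :=
    ((continuous_const.mul (continuous_pow (k + 1))).tendsto 1).mono_left nhdsWithin_le_nhds
  have h3 : ∀ᶠ R : ℝ in nhdsWithin 1 (Set.Iio 1), c * R ^ (k + 1) ≤ 10 := by
    filter_upwards [Ico_mem_nhdsLT (show (199 / 200 : ℝ) < 1 by norm_num)] with R hR
    exact h1 R hR.1 hR.2
  simpa using le_of_tendsto h2 h3

end Pool.Agent.Lib.MP_f36384_an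
end
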