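import Pool.Agent.Lib.MP_f36384_an.Bloch

/-! Sums of squares of the coefficients. -/

namespace Pool.Agent.Lib.MP_f36384_an

open Real Metric Complex Set

theorem fm_le {t w : ℂ} {δ : ℝ} (hδ : δ ≤ 1) (hw : ‖w‖ < δ) :
    ‖fm t w‖ ≤ ‖t‖ * (1 + δ) * ‖w‖ := by
  have hw0 := norm_nonneg w
  have h1 : ‖Complex.exp w - 1 - w‖ ≤ ‖w‖ ^ 2 := Complex.norm_exp_sub_one_sub_id_le (by linarith)
  have h2 := norm_le_insert' (Complex.exp w - 1) w
  rw [fm, norm_mul, mul_assoc]
  gcongr
  nlinarith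

theorem fm_per (t w : ℂ) : fm t (w + 2 * π * I) = fm t w := by
  rw [fm, fm, Complex.exp_add, Complex.exp_two_pi_mul_I, mul_one]

theorem eq_of_exp {a b : ℂ → ℂ} {δ : ℝ} (ha : DifferentiableOn ℂ a (ball 0 δ))
    (hb : DifferentiableOn ℂ b (ball 0 δ)) (h0 : a 0 = b 0)
    (h : ∀ w ∈ ball (0 : ℂ) δ, Complex.exp (a w) = Complex.exp (b w)) :
    ∀ w ∈ ball (0 : ℂ) δ, a w = b w := fun w hw => by
  have hd := ha.sub hb
  have h1 : ∀ z ∈ ball (0 : ℂ) δ, Complex.exp ((a - b) z) = 1 := fun z hz => by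
    rw [Pi.sub_apply, Complex.exp_sub, h z hz, div_self (Complex.exp_ne_zero _)]
  have h2 : (a - b) w = (a - b) 0 :=
    isOpen_ball.is_const_of_deriv_eq_zero (convex_ball (0 : ℂ) δ).isPreconnected hd
      (fun z hz => by
        have k := (hd.differentiableAt (isOpen_ball.mem_nhds hz)).hasDerivAt.cexp
        have k' := k.unique ((hasDerivAt_const z (1 : ℂ)).congr_of_eventuallyEq
          (Filter.eventually_of_mem (isOpen_ball.mem_nhds hz) h1))
        exact (mul_eq_zero.1 k').resolve_left (Complex.exp_ne_zero _)) hw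
      (mem_ball_self ((norm_nonneg w).trans_lt (mem_ball_zero_iff.1 hw)))
  rw [Pi.sub_apply, Pi.sub_apply, h0, sub_self] at h2
  exact sub_eq_zero.1 h2

/-- Branches of the inverses of the iterates. -/
structure Br (t : ℂ) (δ : ℝ) (j : ℕ) (g : ℂ → ℂ) : Prop where
  d : DifferentiableOn ℂ g (ball 0 δ)
  z : g 0 = 0
  de : t ^ j * deriv g 0 = 1
  inv : ∀ w ∈ ball (0 : ℂ) δ, (fm t)^[j] (g w) = w
  com : ∀ w ∈ ball (0 : ℂ) δ, g (fm t w) = fm t (g w)

variable {t : ℂ} {δ : ℝ} {j : ℕ} {g : ℂ → ℂ}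

theorem Br.ne (h : Br t δ (j + 1) g) :
    ∀ w ∈ ball (0 : ℂ) δ, ∀ w' ∈ ball (0 : ℂ) δ, g w ≠ g w' + 2 * π * I := fun w hw w' hw' e => by
  have h1 := h.inv w hw
  rw [e, Function.iterate_succ_apply, fm_per, ← Function.iterate_succ_apply, h.inv w' hw'] at h1
  rw [h1, left_eq_add] at e
  exact two_pi_I_ne_zero e

theorem Br.succ (h : Br t δ j g) (ht : t ≠ 0) (hδ : 0 < δ)
    (hm : MapsTo (fm t) (ball 0 δ) (ball 0 δ)) (hn : ∀ w ∈ ball (0 : ℂ) δ, g w ≠ -t) :
    ∃ G, Br t δ (j + 1) G := by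
  obtain ⟨G, Gd, G0, G1, Ge⟩ := exists_log hδ ((h.d.div_const t).const_add 1) (fun w hw e =>
    hn w hw (by field_simp at e; linear_combination e)) (by simp [h.z])
  have h1 : ∀ w ∈ ball (0 : ℂ) δ, fm t (G w) = g w := fun w hw => by
    rw [fm, Ge w hw]
    field_simp
    ring
  refine ⟨G, Gd, G0, ?_, fun w hw => ?_, fun w hw => ?_⟩
  · rw [G1, deriv_const_add, deriv_div_const, ← h.de]
    field_simp
    ring
  · rw [Function.iterate_succ_apply, h1 w hw, h.inv w hw]
  · rw [h1 w hw]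
    refine eq_of_exp (a := fun w => G (fm t w)) (Gd.comp ?_ hm) h.d (by simp [fm, G0, h.z])
      (fun z hz => ?_) w hw
    · unfold fm
      fun_prop
    · have h2 := (h1 _ (hm hz)).trans (h.com z hz)
      rw [fm, fm] at h2
      exact sub_left_injective (mul_left_cancel₀ ht h2)

theorem exists_br (ht : ‖t‖ < 1) (hδ : 0 < δ) (hδt : δ ≤ ‖t‖)
    (hm : MapsTo (fm t) (ball 0 δ) (ball 0 δ)) :
    ∃ j g, Br t δ (j + 1) g ∧ ∃ w ∈ ball (0 : ℂ) δ, g w = -t := by
  have ht0 : t ≠ 0 := norm_pos_iff.1 (hδ.trans_le hδt)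
  by_contra! H
  have h1 : ∀ j, ∃ g, Br t δ (j + 1) g := fun j => by
    induction j with
    | zero =>
      refine Br.succ (g := fun w => w) ⟨differentiableOn_id, rfl, by simp, fun _ _ => rfl,
        fun _ _ => rfl⟩ ht0 hδ hm fun w hw e => ?_
      rw [e, mem_ball_zero_iff, norm_neg] at hw
      linarith
    | succ j ih =>
      obtain ⟨g, hg⟩ := ih
      exact hg.succ ht0 hδ hm (H j g hg)
  obtain ⟨j, hj⟩ := exists_pow_lt_of_lt_one (show 0 < δ / 320 by linarith) ht
  obtain ⟨g, hg⟩ := h1 j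
  have h2 := bloch hg.d (half_lt_self hδ) hg.ne (w := 0) (by rw [norm_zero]; linarith)
  have h3 : ‖t‖ ^ (j + 1) * ‖deriv g 0‖ = 1 := by rw [← norm_pow, ← norm_mul, hg.de, norm_one]
  have h4 : ‖t‖ ^ (j + 1) ≤ ‖t‖ ^ j := pow_le_pow_of_le_one (norm_nonneg _) ht.le j.le_succ
  rw [norm_zero, sub_zero] at h2
  have h5 : ‖t‖ ^ (j + 1) * (δ / 2 * ‖deriv g 0‖) ≤ ‖t‖ ^ (j + 1) * 160 := by gcongr
  rw [mul_left_comm, h3] at h5
  linarith

/-- The growth of the orbit of the singular value. -/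
theorem orbit_le (h1 : 1 / 2 ≤ ‖t‖) (ht : ‖t‖ < 1) {n : ℕ} (hn : n ≠ 0) :
    ‖t * F n t‖ ≤ -160 * Real.log (1 - ((1 + ‖t‖) / 2) ^ n) := by
  set q := (1 + ‖t‖) / 2 with hq
  have h2 : ∀ w ∈ ball (0 : ℂ) ((1 - ‖t‖) / 2), ‖fm t w‖ ≤ q * ‖w‖ := fun w hw =>
    (fm_le (by linarith) (mem_ball_zero_iff.1 hw)).trans (by gcongr; nlinarith)
  have h3 : MapsTo (fm t) (ball 0 ((1 - ‖t‖) / 2)) (ball 0 ((1 - ‖t‖) / 2)) := fun w hw => by
    have := h2 w hw
    rw [mem_ball_zero_iff] at hw ⊢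
    nlinarith [norm_nonneg w]
  obtain ⟨j, g, hg, w, hw, e⟩ := exists_br ht (by linarith) (by linarith) h3
  have h4 : ∀ m, g ((fm t)^[m] w) = (fm t)^[m] (-t) ∧ ‖(fm t)^[m] w‖ ≤ q ^ m * ‖w‖ := fun m => by
    induction m with
    | zero => exact ⟨e, by simp⟩
    | succ m ih =>
      simp only [Function.iterate_succ_apply']
      refine ⟨by rw [hg.com _ (h3.iterate m hw), ih.1], (h2 _ (h3.iterate m hw)).trans ?_⟩
      rw [pow_succ', mul_assoc]
      gcongr
      exact ih.2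
  obtain ⟨R, hR1, hR2⟩ := exists_between (mem_ball_zero_iff.1 hw)
  have hR : 0 < R := (norm_nonneg w).trans_lt hR1
  have h5 : q ^ n < 1 := pow_lt_one₀ (by linarith) (by linarith) hn
  have h6 : ‖(fm t)^[n] w‖ ≤ q ^ n * R := (h4 n).2.trans (by gcongr)
  rw [W_eq, ← (h4 n).1]
  refine (growth hg.d hR2 hg.z hg.ne (h6.trans_lt (by nlinarith))).trans ?_
  have := Real.log_le_log (by linarith : 0 < 1 - q ^ n)
    (show 1 - q ^ n ≤ 1 - ‖(fm t)^[n] w‖ / R by linarith [(div_le_iff₀ hR).2 h6])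
  linarith

theorem bessel {f : ℂ → ℂ} (hf : Differentiable ℂ f) {R : ℝ} (hR : 0 < R) (S : Finset ℕ) :
    ∑ k ∈ S, (‖iteratedDeriv k f 0 / k.factorial‖ * R ^ k) ^ 2 ≤
      circleAverage (fun z => ‖f z‖ ^ 2) 0 R := by
  have hc : Continuous fun x : ℝ => f (circleMap 0 R x) :=
    hf.continuous.comp (continuous_circleMap 0 R)
  have h1 := hasSum_sq_fourierCoeffOn (f := fun x : ℝ => f (circleMap 0 R x)) two_pi_pos (by
    refine (MeasureTheory.memLp_two_iff_integrable_sq_norm hc.aestronglyMeasurable).2 ?_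
    exact ((hc.norm.pow 2).intervalIntegrable 0 (2 * π)).1)
  have h2 : ∀ k : ℕ, fourierCoeffOn two_pi_pos (fun x : ℝ => f (circleMap 0 R x)) k =
      iteratedDeriv k f 0 / k.factorial * R ^ k := fun k => by
    have e := (hf.diffContOnCl (s := ball (0 : ℂ) R)).circleIntegral_one_div_sub_center_pow_smul
      hR k
    have e2 : (∮ z in C(0, R), (1 / (z - 0) ^ (k + 1)) • f z) = (I / R ^ k) *
        ∫ x in (0 : ℝ)..2 * π, fourier (-k) (x : AddCircle (2 * π - 0)) • f (circleMap 0 R x) := by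
      rw [circleIntegral, ← intervalIntegral.integral_const_mul]
      refine intervalIntegral.integral_congr fun x _ => ?_
      have e3 : 2 * π * I * (-k : ℤ) * x / (2 * π - 0 : ℝ) = -(k * (x * I)) := by
        have : (π : ℂ) ≠ 0 := ofReal_ne_zero.2 pi_ne_zero
        push_cast
        field_simp
        ring
      have : (R : ℂ) ≠ 0 := ofReal_ne_zero.2 hR.ne'
      have := Complex.exp_ne_zero (x * I)
      rw [fourier_coe_apply, e3]
      simp only [deriv_circleMap, circleMap_zero, smul_eq_mul, sub_zero,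
        Complex.exp_neg, Complex.exp_nat_mul, mul_pow, pow_succ]
      field_simp
    rw [e2, smul_eq_mul] at e
    rw [fourierCoeffOn_eq_integral, Complex.real_smul]
    have : (R : ℂ) ≠ 0 := ofReal_ne_zero.2 hR.ne'
    have : (π : ℂ) ≠ 0 := ofReal_ne_zero.2 pi_ne_zero
    have : (k.factorial : ℂ) ≠ 0 := by exact_mod_cast k.factorial_ne_zero
    have := I_ne_zero
    push_cast
    field_simp at e ⊢
    linear_combination e
  have h3 := sum_le_hasSum (S.map ⟨Nat.cast, Nat.cast_injective⟩) (fun _ _ => sq_nonneg _) h1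
  rw [Finset.sum_map, sub_zero] at h3
  refine le_trans (le_of_eq (Finset.sum_congr rfl fun k _ => ?_)) h3
  rw [Function.Embedding.coeFn_mk, h2, norm_mul, norm_pow, norm_real, Real.norm_of_nonneg hR.le]

theorem avg_sq_le {f : ℂ → ℂ} (hf : Differentiable ℂ f) (h0 : f 0 = 0) {R L : ℝ}
    (h : ∀ z ∈ sphere (0 : ℂ) |R|, ‖f z‖ ≤ L) :
    circleAverage (fun z => ‖f z‖ ^ 2) 0 R ≤ 4 * L * posAvg f R := by
  have hc := hf.continuous
  have hd : Differentiable ℂ fun z => 2 * L * f z + f z ^ 2 := by fun_prop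
  have h1 : circleAverage (fun z => (2 * L * f z + f z ^ 2).re) 0 R = 0 := by
    rw [avg_re hd.continuous.continuousOn.circleIntegrable', hd.diffContOnCl.circleAverage, h0]
    simp
  have c1 : Continuous fun z => 4 * L * max (f z).re 0 := by fun_prop
  have c2 : Continuous fun z => (2 * L * f z + f z ^ 2).re := by fun_prop
  have h2 := circleAverage_mono (c := 0) (R := R) (f₁ := fun z => ‖f z‖ ^ 2)
    (hc.norm.pow 2).continuousOn.circleIntegrable' (c1.sub c2).continuousOn.circleIntegrable'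
    fun z hz => by
      have k1 := (Complex.abs_re_le_norm (f z)).trans (h z hz)
      have k2 : (2 * L * f z + f z ^ 2).re = 2 * L * (f z).re + ((f z).re ^ 2 - (f z).im ^ 2) := by
        simp [pow_two]
      rw [Pi.sub_apply, k2, Complex.sq_norm, Complex.normSq_apply]
      rcases le_total (f z).re 0 with k | k
      · rw [max_eq_right k]
        rw [abs_of_nonpos k] at k1
        nlinarith
      · rw [max_eq_left k]
        rw [abs_of_nonneg k] at k1
        nlinarith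
  rw [circleAverage_sub c1.continuousOn.circleIntegrable' c2.continuousOn.circleIntegrable',
    h1, sub_zero] at h2
  exact h2.trans_eq (circleAverage_fun_smul (a := 4 * L))

theorem sum_sq_le {n : ℕ} (hn : n ≠ 0) {R : ℝ} (h1 : 199 / 200 ≤ R) (hR : R < 1) (S : Finset ℕ) :
    ∑ k ∈ S, (‖iteratedDeriv k (F n) 0 / k.factorial‖ * R ^ (k + 1)) ^ 2 ≤
      -1600 * Real.log (1 - ((1 + R) / 2) ^ n) := by
  have h2 := bessel (W_diff n) (show 0 < R by linarith) (S.map ⟨(· + 1), add_left_injective 1⟩)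
  have h3 := avg_sq_le (W_diff n) (by simp) (R := R)
    (L := -160 * Real.log (1 - ((1 + R) / 2) ^ n)) fun z hz => by
      have e : ‖z‖ = R := by simpa [abs_of_pos (show 0 < R by linarith)] using hz
      rw [← e]
      exact orbit_le (by linarith) (by linarith) hn
  have h4 : ((1 + R) / 2) ^ n < 1 := pow_lt_one₀ (by linarith) (by linarith) hn
  have h5 : Real.log (1 - ((1 + R) / 2) ^ n) ≤ 0 :=
    Real.log_nonpos (by linarith) (by linarith [pow_nonneg (show 0 ≤ (1 + R) / 2 by linarith) n])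
  simp only [Finset.sum_map, Function.Embedding.coeFn_mk, coeff_shift (F_diff n)] at h2
  nlinarith [posAvg_W n h1 hR]

theorem main_sq {n K : ℕ} (hn : 1 ≤ n) (hK : n ≤ K) :
    ∑ k ∈ Finset.range (K + 1), ‖iteratedDeriv k (F n) 0 / k.factorial‖ ^ 2 ≤
      10000 * (1 + Real.log (K / n)) := by
  have n1 : (1 : ℝ) ≤ n := by exact_mod_cast hn
  have nK : (n : ℝ) ≤ K := by exact_mod_cast hK
  have K0 : (0 : ℝ) < K := by linarith
  set x : ℝ := 1 / (400 * K) with hx
  have x0 : 0 < x := by positivity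
  have xK : x * K = 1 / 400 := by rw [hx]; field_simp
  have x1 : x ≤ 1 / 400 := by nlinarith
  have h1 := sum_sq_le (n := n) (by omega) (R := 1 - 2 * x) (by linarith) (by linarith)
    (Finset.range (K + 1))
  rw [show (1 + (1 - 2 * x)) / 2 = 1 - x by ring] at h1
  have h2 : (1 - x) ^ n * (1 + n * x) ≤ 1 :=
    calc (1 - x) ^ n * (1 + n * x) ≤ (1 - x) ^ n * (1 + x) ^ n := by
          have := one_add_mul_le_pow (show -2 ≤ x by linarith) n
          have : 0 ≤ 1 - x := by linarith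
          gcongr
      _ ≤ 1 := by
          rw [← mul_pow]
          exact pow_le_one₀ (by nlinarith) (by nlinarith)
  have h3 : n / K / 401 ≤ 1 - (1 - x) ^ n := by
    have e : n / K / 401 = 400 / 401 * (n * x) := by rw [hx]; field_simp
    have k1 : n * x ≤ 1 / 400 := by nlinarith
    have k2 : 0 < n * x := by positivity
    rw [e]
    by_contra! H
    nlinarith
  have h4 := Real.log_le_log (by positivity) h3
  have h5 : Real.log 401 ≤ 6 := by
    rw [Real.log_le_iff_le_exp (by norm_num)]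
    refine le_trans ?_ (Real.sum_le_exp_of_nonneg (by norm_num) 16)
    simp only [Finset.sum_range_succ, Finset.sum_range_zero, Nat.factorial]
    norm_num
  have h6 : 0 ≤ Real.log (K / n) := Real.log_nonneg ((one_le_div (by linarith)).2 nK)
  rw [Real.log_div (by positivity) (by norm_num), ← inv_div, Real.log_inv] at h4
  have h7 : 49 / 50 * ∑ k ∈ Finset.range (K + 1), ‖iteratedDeriv k (F n) 0 / k.factorial‖ ^ 2 ≤
      ∑ k ∈ Finset.range (K + 1),
        (‖iteratedDeriv k (F n) 0 / k.factorial‖ * (1 - 2 * x) ^ (k + 1)) ^ 2 := by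
    rw [Finset.mul_sum]
    refine Finset.sum_le_sum fun k hk => ?_
    have k1 : (k : ℝ) ≤ K := by exact_mod_cast Nat.lt_succ_iff.1 (Finset.mem_range.1 hk)
    have k2 := one_add_mul_le_pow (show -2 ≤ -(2 * x) by linarith) (k + 1)
    rw [← sub_eq_add_neg] at k2
    push_cast at k2
    have k3 : 99 / 100 ≤ (1 - 2 * x) ^ (k + 1) := by nlinarith
    rw [mul_pow, mul_comm]
    gcongr
    nlinarith
  linarith

end Pool.Agent.Lib.MP_f36384_an
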